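import Pool.Agent.N251.LF.Win
import Pool.Agent.Run7.h95.PG.Seg

/-!
# The initial segments of two arbitrary sets of integers for ALL primes near the values of generic linear forms

Let `v_i`, `i` in a countable set, be vectors in `ℝ^k` such that for every `e > 0` at most `C X ^ (σ + e)` of them have norm at
most `X`; for instance all `(b_1^(n_1), …, b_k^(n_k))` with `b_j > 1` (`σ = 0`), all `(1, n, …, n^d)` (`σ = 1 / d`), or all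
`(n_1^(a_1), …, n_k^(a_k))` (`σ` the sum of the `1 / a_j`). Let `𝒜` and `ℬ` be any sets of nonnegative integers, and let `𝒜(p)`,
`ℬ(p)` be the sets of their elements below the prime `p`. For every `ε > 0` there is `τ > 0` (independent of the family, of `𝒜`,
`ℬ` and of the nonzero integers `r`, `s`) such that for all `0 ≤ θ < 1` and all `α` in `ℝ^k` outside a set of Hausdorff
dimension at most `k - 1 + (1 - τ + σ) / (1 - θ)`, for all `w` and all but finitely many `i`, for ALL primes `p` with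
`|p - (α_1 v_(i,1) + … + α_k v_(i,k))| ≤ w |v_i|^θ` and `|𝒜(p)|, |ℬ(p)| ≥ p ^ ε` the bilinear forms `∑ f(a) g(b) (r a + s b | p)`
over `𝒜(p) × ℬ(p)` satisfy the bound of the question with saving `p ^ (- τ)`, for arbitrary complex weights. One exceptional set
of `α` suffices for countably many pairs of sets `𝒜`, `ℬ` and all `r`, `s`. For `θ < τ - σ` the dimension is less than `k`, and
the statement holds for almost all `α`.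

Proof. The number of the exceptional primes `p ≤ X` is at most `X ^ (1 - τ)`, uniformly in `𝒜`, `ℬ`
(`Pool.Agent.Run7.h95.PG.Seg`). The `α` for which an exceptional prime is in the window of `v_i` form a union of slabs; the
slabs are covered by few small cubes (`Pool.Agent.N251.LF.Win`).
-/

set_option autoImplicit false

namespace Pool.Agent.Results.MP_f6e9a2_nt.GenericLinearForms

open Finset
open Pool.Agent.N251.LF (Fam Sq linear_good_nat examples)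
open Run7.h95.PG (seg Good)

/-- the number of the exceptional primes, for all `X` -/
lemma count {ε τ : ℝ} (hτ1 : τ ≤ 1) {Q₀ : ℕ} (h : ∀ Q : ℕ, Q₀ ≤ Q → ∀ (𝒜 ℬ : Set ℕ) (u v : ℤ),
    u ≠ 0 → v ≠ 0 → |u| ≤ Q → |v| ≤ Q →
    ({p : ℕ | p.Prime ∧ p ≤ Q ∧ ¬ Good ε τ 𝒜 ℬ u v p}.ncard : ℝ) ≤ (Q : ℝ) ^ (1 - τ)) (𝒜 ℬ : Set ℕ) {u v : ℤ} (hu : u ≠ 0)
    (hv : v ≠ 0) (e : ℝ) (he : 0 < e) : ∃ C : ℝ, ∀ X : ℕ, 1 ≤ X →
    (({t : ℕ | 1 ≤ t ∧ t ≤ X ∧ t.Prime ∧ ¬ Good ε τ 𝒜 ℬ u v t}.ncard : ℕ) : ℝ) ≤ C * (X : ℝ) ^ (1 - τ + e) := by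
  obtain ⟨Y, hY⟩ : ∃ Y : ℕ, Y = max Q₀ (max u.natAbs v.natAbs) := ⟨_, rfl⟩
  refine ⟨(Y : ℝ) + 1, fun X hX => ?_⟩
  have hX1 : (1 : ℝ) ≤ X := by exact_mod_cast hX
  have hp1 : 1 ≤ (X : ℝ) ^ (1 - τ + e) := Real.one_le_rpow hX1 (by linarith)
  have hY0 : (0 : ℝ) ≤ Y := Nat.cast_nonneg _
  rcases Nat.lt_or_ge X Y with hlt | hge
  · have hsub : {t : ℕ | 1 ≤ t ∧ t ≤ X ∧ t.Prime ∧ ¬ Good ε τ 𝒜 ℬ u v t} ⊆ Set.Icc 1 X := fun t ht => ⟨ht.1, ht.2.1⟩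
    have h3 := Set.ncard_le_ncard hsub (Set.finite_Icc 1 X)
    rw [Set.ncard_eq_toFinset_card' (Set.Icc 1 X)] at h3
    simp only [Set.toFinset_Icc, Nat.card_Icc, add_tsub_cancel_right] at h3
    have h4 : ({t : ℕ | 1 ≤ t ∧ t ≤ X ∧ t.Prime ∧ ¬ Good ε τ 𝒜 ℬ u v t}.ncard : ℝ) ≤ Y := by
      exact_mod_cast h3.trans hlt.le
    calc _ ≤ (Y : ℝ) := h4
      _ ≤ ((Y : ℝ) + 1) * 1 := by linarith
      _ ≤ _ := mul_le_mul_of_nonneg_left hp1 (by positivity)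
  · have h5 : Q₀ ≤ X := (by rw [hY]; exact le_max_left _ _ : Q₀ ≤ Y).trans hge
    have h6 : u.natAbs ≤ X := (by rw [hY]; exact (le_max_left _ _).trans (le_max_right _ _) : u.natAbs ≤ Y).trans hge
    have h7 : v.natAbs ≤ X := (by rw [hY]; exact (le_max_right _ _).trans (le_max_right _ _) : v.natAbs ≤ Y).trans hge
    have h8 := h X h5 𝒜 ℬ u v hu hv (by rw [Int.abs_eq_natAbs]; exact_mod_cast h6) (by rw [Int.abs_eq_natAbs]; exact_mod_cast h7)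
    have hfin : {p : ℕ | p.Prime ∧ p ≤ X ∧ ¬ Good ε τ 𝒜 ℬ u v p}.Finite := (Set.finite_Iic X).subset fun p hp => hp.2.1
    have hsub : {t : ℕ | 1 ≤ t ∧ t ≤ X ∧ t.Prime ∧ ¬ Good ε τ 𝒜 ℬ u v t} ⊆
        {p : ℕ | p.Prime ∧ p ≤ X ∧ ¬ Good ε τ 𝒜 ℬ u v p} := fun t ht => ⟨ht.2.2.1, ht.2.1, ht.2.2.2⟩
    have h9 := Set.ncard_le_ncard hsub hfin
    calc (({t : ℕ | 1 ≤ t ∧ t ≤ X ∧ t.Prime ∧ ¬ Good ε τ 𝒜 ℬ u v t}.ncard : ℕ) : ℝ) ≤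
          ({p : ℕ | p.Prime ∧ p ≤ X ∧ ¬ Good ε τ 𝒜 ℬ u v p}.ncard : ℝ) := by exact_mod_cast h9
      _ ≤ (X : ℝ) ^ (1 - τ) := h8
      _ ≤ (X : ℝ) ^ (1 - τ + e) := Real.rpow_le_rpow_of_exponent_le hX1 (by linarith)
      _ = 1 * (X : ℝ) ^ (1 - τ + e) := (one_mul _).symm
      _ ≤ _ := mul_le_mul_of_nonneg_right (by linarith) (by positivity)

/-- **Theorem.** (1) For every `ε > 0` there is `τ` in `(0, 1]` with the following property. Let the family `v` of vectors in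
`ℝ^k` have at most `C X ^ (σ + e)` members of norm at most `X` for every `e > 0` (`Fam v σ`), `σ ≥ 0`, `0 ≤ θ < 1`, and let
`𝒜_0, 𝒜_1, …` and `ℬ_0, ℬ_1, …` be ANY sets of nonnegative integers. For all `α` in `ℝ^k` outside ONE set `E` of Hausdorff
dimension at most `k - 1 + (1 - τ + σ) / (1 - θ)`, for all `j`, all nonzero integers `r`, `s` and all `w`, for all but finitely
many `i` ALL primes `p` with `|p - ∑ α_l v_(i,l)| ≤ w ‖v_i‖ ^ θ` are good for `𝒜_j`, `ℬ_j` and `r`, `s`. If `θ < τ - σ`, then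
`E` has dimension less than `k` and measure zero. (2) Examples of families. -/
theorem result :
    (∀ ε : ℝ, 0 < ε → ∃ τ : ℝ, 0 < τ ∧ τ ≤ 1 ∧
      ∀ (k : ℕ) (ι : Type) (v : ι → Fin k → ℝ) (σ θ : ℝ), 0 ≤ σ → 0 ≤ θ → θ < 1 → Fam v σ → ∀ 𝒜 ℬ : ℕ → Set ℕ,
      ∃ E : Set (Fin k → ℝ), dimH E ≤ ENNReal.ofReal ((k : ℝ) - 1 + (1 - τ + σ) / (1 - θ)) ∧
        (1 ≤ k → θ < τ - σ → dimH E < (k : ENNReal) ∧ MeasureTheory.volume E = 0) ∧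
        ∀ α, α ∉ E → ∀ (j : ℕ) (r s : ℤ) (w : ℝ), r ≠ 0 → s ≠ 0 →
          {i | ¬ ∀ p : ℕ, p.Prime → |(p : ℝ) - ∑ l, α l * v i l| ≤ w * ‖v i‖ ^ θ → Good ε τ (𝒜 j) (ℬ j) r s p}.Finite) ∧
    (∀ d : ℕ, 1 ≤ d → Fam (fun (n : ℕ) (j : Fin (d + 1)) => (n : ℝ) ^ (j : ℕ)) (1 / d)) ∧
    (∀ (k : ℕ) (b : Fin k → ℝ), (∀ j, 1 < b j) → Fam (fun (n : Fin k → ℕ) (j : Fin k) => b j ^ n j) 0) ∧
    (∀ (k : ℕ) (a : Fin k → ℝ), (∀ j, 0 < a j) →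
      Fam (fun (n : Fin k → ℕ) (j : Fin k) => (n j : ℝ) ^ a j) (∑ j, 1 / a j)) ∧
    ∀ (k : ℕ) (u : Fin k → ℕ → ℝ) (τ : Fin k → ℝ), (∀ j, Sq (u j) (τ j)) →
      Fam (fun (n : Fin k → ℕ) (j : Fin k) => u j (n j)) (∑ j, τ j) := by
  refine ⟨?_, examples⟩
  intro ε hε
  obtain ⟨τ', hτ', Q₀, hQ₀⟩ := Run7.h95.PG.count ε hε
  obtain ⟨τ, hτd⟩ : ∃ τ, τ = min τ' 1 := ⟨_, rfl⟩
  have hτ : 0 < τ := by rw [hτd]; exact lt_min hτ' one_pos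
  have hτ1 : τ ≤ 1 := by rw [hτd]; exact min_le_right _ _
  have hττ : τ ≤ τ' := by rw [hτd]; exact min_le_left _ _
  have hQ : ∀ Q : ℕ, max Q₀ 1 ≤ Q → ∀ (𝒜 ℬ : Set ℕ) (u v : ℤ), u ≠ 0 → v ≠ 0 → |u| ≤ Q → |v| ≤ Q →
      ({p : ℕ | p.Prime ∧ p ≤ Q ∧ ¬ Good ε τ 𝒜 ℬ u v p}.ncard : ℝ) ≤ (Q : ℝ) ^ (1 - τ) := by
    intro Q hQ 𝒜 ℬ u v hu hv hu1 hv1
    have h1 := hQ₀ Q ((le_max_left _ _).trans hQ) 𝒜 ℬ u v hu hv hu1 hv1
    have hQ1 : (1 : ℝ) ≤ Q := by exact_mod_cast (le_max_right _ _).trans hQ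
    have hfin : {p : ℕ | p.Prime ∧ p ≤ Q ∧ ¬ Good ε τ' 𝒜 ℬ u v p}.Finite := (Set.finite_Iic Q).subset fun p hp => hp.2.1
    have hsub : {p : ℕ | p.Prime ∧ p ≤ Q ∧ ¬ Good ε τ 𝒜 ℬ u v p} ⊆ {p : ℕ | p.Prime ∧ p ≤ Q ∧ ¬ Good ε τ' 𝒜 ℬ u v p} := by
      rintro p ⟨hp, hpQ, hbad⟩
      refine ⟨hp, hpQ, fun hg => hbad fun hA hB f g => (hg hA hB f g).trans ?_⟩
      have hp1 : (1 : ℝ) ≤ p := by exact_mod_cast hp.one_lt.le
      apply mul_le_mul_of_nonneg_right _ (by positivity)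
      apply mul_le_mul_of_nonneg_right _ (Real.sqrt_nonneg _)
      exact Real.rpow_le_rpow_of_exponent_le hp1 (by linarith)
    calc ({p : ℕ | p.Prime ∧ p ≤ Q ∧ ¬ Good ε τ 𝒜 ℬ u v p}.ncard : ℝ) ≤ _ := by
          exact_mod_cast Set.ncard_le_ncard hsub hfin
      _ ≤ (Q : ℝ) ^ (1 - τ') := h1
      _ ≤ (Q : ℝ) ^ (1 - τ) := Real.rpow_le_rpow_of_exponent_le hQ1 (by linarith)
  refine ⟨τ, hτ, hτ1, fun k ι v σ θ hσ hθ0 hθ hv 𝒜 ℬ => ?_⟩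
  have key : ∀ x : ℕ × {r : ℤ // r ≠ 0} × {s : ℤ // s ≠ 0}, ∃ E : Set (Fin k → ℝ),
      dimH E ≤ ENNReal.ofReal ((k : ℝ) - 1 + (1 - τ + σ) / (1 - θ)) ∧
      ∀ α, α ∉ E → ∀ w : ℝ, {i | ¬ ∀ p : ℕ, 1 ≤ p → p.Prime → |(p : ℝ) - ∑ l, α l * v i l| ≤ w * ‖v i‖ ^ θ →
        Good ε τ (𝒜 x.1) (ℬ x.1) x.2.1 x.2.2 p}.Finite := fun x =>
    linear_good_nat Nat.Prime (Good ε τ (𝒜 x.1) (ℬ x.1) x.2.1 x.2.2) v (s := 1 - τ) (by linarith) hσ hθ hv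
      (fun e he => count hτ1 hQ (𝒜 x.1) (ℬ x.1) x.2.1.2 x.2.2.2 e he)
  choose E hE hE2 using key
  have hU : dimH (⋃ x, E x) ≤ ENNReal.ofReal ((k : ℝ) - 1 + (1 - τ + σ) / (1 - θ)) := by
    rw [dimH_iUnion]
    exact iSup_le hE
  refine ⟨⋃ x, E x, hU, fun hk hlt => ?_, fun α hα j r s w hr hs =>
    (hE2 (j, ⟨r, hr⟩, ⟨s, hs⟩) α (fun h => hα (Set.mem_iUnion.2 ⟨(j, ⟨r, hr⟩, ⟨s, hs⟩), h⟩)) w).subset ?_⟩
  · have h1 : (1 - τ + σ) / (1 - θ) < 1 := by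
      rw [div_lt_one (by linarith)]
      linarith
    have hkr : (1 : ℝ) ≤ k := by exact_mod_cast hk
    have h2 : dimH (⋃ x, E x) < (k : ENNReal) := by
      refine lt_of_le_of_lt hU ?_
      rw [← ENNReal.ofReal_natCast, ENNReal.ofReal_lt_ofReal_iff (by linarith)]
      linarith
    refine ⟨h2, ?_⟩
    have h3 : dimH (⋃ x, E x) < ((k : NNReal) : ENNReal) := by simpa using h2
    have h4 := hausdorffMeasure_of_dimH_lt h3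
    have h5 : (MeasureTheory.Measure.hausdorffMeasure ((Fintype.card (Fin k) : ℕ) : ℝ) : MeasureTheory.Measure (Fin k → ℝ)) =
        MeasureTheory.volume := MeasureTheory.hausdorffMeasure_pi_real
    rw [← h5, Fintype.card_fin]
    simpa using h4
  · intro i hi
    simp only [Set.mem_ofPred_eq] at hi ⊢
    intro h
    apply hi
    intro p hp hw
    exact h p hp.one_lt.le hp hw

end Pool.Agent.Results.MP_f6e9a2_nt.GenericLinearForms
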