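import Pool.Agent.Run7.h467.GA.Dya
import Pool.Agent.Results.MP_f6e9a2_nt.AlmostAllPrimes

/-!
# Double sums of Legendre symbols over two arbitrary sets, modulo ALL primes near the entries of good rational approximations

For every `j` let `A_j`, `B_j` be arbitrary sets of integers in `[-2 ^ (j K), 2 ^ (j K)]` with at least `2 ^ (j ε)` elements;
for example the parts in this interval of two infinite sets with a positive lower exponent of growth. For a prime `ℓ` between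
`2 ^ (j - 1)` and `2 ^ j` the sets `A_j`, `B_j` are considered. The prime is good if
`|∑_{a ∈ A'} ∑_{b ∈ B'} (a + b | ℓ)| ≤ ℓ ^ (-δ) √(|A_j| |B_j| |A'| |B'|)` for ALL subsets `A'` of `A_j` and `B'` of `B_j`
(for `A' = A_j`, `B' = B_j` this is the bound of the conjecture, for the quadratic character).

Let `α` be a point of `ℝ ^ d`, and let `(p, q)`, `p ∈ ℤ ^ d`, run through its approximations with
`|α_i - p_i / q| ≤ c q ^ (-1-σ)`; by Dirichlet's theorem there are infinitely many for `σ = 1 / d`, `c = 1`, for every `α`;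
for `d = 1` these include all convergents.

Theorem. For all `K` and `ε > 0` there is `δ > 0` such that for all sequences of sets `A_j`, `B_j` as above and all `d`, `σ`,
`κ`, `θ`: for all `α` outside a set of Hausdorff dimension at most `(d + (1 + κ) (1 - δ) + (d + 1) κ + θ) / (1 + σ)` ALL odd primes
`ℓ` at distance at most `c q ^ θ` from a nonzero combination `u · p + v q` with integral coefficients at most `c q ^ κ` are
good, for all but finitely many `(p, q)`. For `σ = 1 / d` the bound for the dimension is smaller than `d` if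
`(d + 2 - δ) κ + θ < δ`; so this holds for almost all `α`, for suitable positive `κ` and `θ`.

The starting theorem `AlmostAllPrimes` has at most `Q ^ (1 - δ)` exceptional primes up to `Q`. The numbers considered here form
a very thin set, which depends on `α`. The vectors `(q, p)` with a combination near an exceptional prime are counted in boxes,
and the set of the exceptional `α` is estimated by the Hausdorff-Cantelli lemma (`Pool.Agent.Run7.h467.GA`).
-/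

set_option autoImplicit false

open Finset

namespace Pool.Agent.Results.MP_f6e9a2_nt.GoodApproximations

/-- the bound for all subsets of `A` and `B`, modulo `ℓ`, with the exponent `δ` -/
def Good (δ : ℝ) (A B : Finset ℤ) (l : ℕ) : Prop :=
  ∀ A' ⊆ A, ∀ B' ⊆ B, |∑ a ∈ A', ∑ b ∈ B', (jacobiSym (a + b) l : ℝ)| ≤
    (l : ℝ) ^ (-δ) * Real.sqrt ((A.card : ℝ) * B.card * ((A'.card : ℝ) * B'.card))

/-- The sets `A j` are in `[-2 ^ (j K), 2 ^ (j K)]` and have at least `2 ^ (j ε)` elements. -/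
def Large (K : ℕ) (ε : ℝ) (A : ℕ → Finset ℤ) : Prop :=
  ∀ j, (∀ a ∈ A j, |a| ≤ (2 : ℤ) ^ (j * K)) ∧ (2 : ℝ) ^ (j * ε) ≤ (A j).card

/-- the exceptional primes -/
def Exc (δ : ℝ) (A B : ℕ → Finset ℤ) : Set ℕ :=
  {l : ℕ | l.Prime ∧ l ≠ 2 ∧ ∃ j : ℕ, 2 ^ j ≤ l ∧ l < 2 ^ (j + 1) ∧ ¬ Good δ (A (j + 1)) (B (j + 1)) l}

open Classical in
/-- **Theorem.** For all `K` and `ε > 0` there is `δ`, `0 < δ ≤ 1`, such that for all large sequences `A`, `B` of sets, all `d`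
and all `σ, κ, θ ≥ 0`, `θ ≤ 1`, there is a set `E` of points of `ℝ ^ d`, of Hausdorff dimension at most
`(d + (1 + κ) (1 - δ) + (d + 1) κ + θ) / (1 + σ)`, such that for all `α` outside `E` and all `c` there is `Q` such that for all
integers `p_1, …, p_d` and `q ≥ Q` with `|α_i - p_i / q| ≤ c q ^ (-1-σ)` for all `i`, all integers `(u, v) ≠ 0` with
`|u_i|, |v| ≤ c q ^ κ` and ALL odd primes `ℓ` with `|ℓ - (u · p + v q)| ≤ c q ^ θ`, `ℓ` is good for `A_j`, `B_j`,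
`2 ^ (j - 1) ≤ ℓ < 2 ^ j`. -/
theorem result (K : ℕ) (ε : ℝ) (hε : 0 < ε) : ∃ δ : ℝ, 0 < δ ∧ δ ≤ 1 ∧
    ∀ A B : ℕ → Finset ℤ, Large K ε A → Large K ε B →
      ∀ (d : ℕ) (σ κ θ : ℝ), 0 ≤ σ → 0 ≤ κ → 0 ≤ θ → θ ≤ 1 →
        ∃ E : Set (Fin d → ℝ), dimH E ≤ ENNReal.ofReal ((d + (1 + κ) * (1 - δ) + (d + 1) * κ + θ) / (1 + σ)) ∧
          ∀ α : Fin d → ℝ, α ∉ E → ∀ c : ℝ, ∃ Q : ℕ, ∀ (p : Fin d → ℤ) (q : ℕ), Q ≤ q →
            (∀ i, |α i - p i / q| ≤ c / (q : ℝ) ^ (1 + σ)) → ∀ (u : Fin d → ℤ) (v : ℤ), (u ≠ 0 ∨ v ≠ 0) →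
              (∀ i, |(u i : ℝ)| ≤ c * (q : ℝ) ^ κ) → |(v : ℝ)| ≤ c * (q : ℝ) ^ κ →
                ∀ l : ℕ, l.Prime → l ≠ 2 → |(l : ℝ) - (∑ i, (u i : ℝ) * p i + v * q)| ≤ c * (q : ℝ) ^ θ →
                  ∀ j : ℕ, 2 ^ j ≤ l → l < 2 ^ (j + 1) → Good δ (A (j + 1)) (B (j + 1)) l := by
  obtain ⟨δ₀, hδ₀, Q₀, h⟩ := AlmostAllPrimes.result.2 K ε hε
  refine ⟨min δ₀ 1, lt_min hδ₀ one_pos, min_le_right _ _, fun A B hA hB d σ κ θ hσ hκ hθ hθ1 => ?_⟩
  obtain ⟨δ, hδ⟩ : ∃ δ, δ = min δ₀ 1 := ⟨_, rfl⟩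
  rw [← hδ]
  have hδ1 : δ ≤ 1 := by rw [hδ]; exact min_le_right _ _
  have hδ2 : δ ≤ δ₀ := by rw [hδ]; exact min_le_left _ _
  have hcount : ∀ η : ℝ, 0 < η → ∃ C : ℝ, ∀ X : ℕ, 1 ≤ X →
      (((Ioc 0 X).filter (fun t => t ∈ Exc δ A B)).card : ℝ) ≤ C * (X : ℝ) ^ ((1 - δ) + η) := by
    refine Run7.h467.GA.dyadic (Exc δ A B) (s := 1 - δ) (by linarith) Q₀ fun j hj => ?_
    have hj1 : Q₀ ≤ 2 ^ (j + 1) := by
      have h1 : j < 2 ^ j := Nat.lt_two_pow_self
      have h2 : 2 ^ j ≤ 2 ^ (j + 1) := Nat.pow_le_pow_right (by norm_num) (by omega)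
      omega
    have hK : ∀ C : ℕ → Finset ℤ, Large K ε C → (∀ a ∈ C (j + 1), |a| ≤ (((2 ^ (j + 1) : ℕ) : ℤ)) ^ K) := by
      intro C hC a ha
      have h3 := (hC (j + 1)).1 a ha
      rw [pow_mul] at h3
      push_cast
      exact h3
    have hε' : ∀ C : ℕ → Finset ℤ, Large K ε C → ((2 ^ (j + 1) : ℕ) : ℝ) ^ ε ≤ (C (j + 1)).card := by
      intro C hC
      have h3 := (hC (j + 1)).2
      rw [Real.rpow_mul two_pos.le, Real.rpow_natCast] at h3
      push_cast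
      exact h3
    obtain ⟨E, hE, hE2⟩ := h (2 ^ (j + 1)) (A (j + 1)) (B (j + 1)) hj1 (hK A hA) (hK B hB) (hε' A hA) (hε' B hB)
    have hsub : (Ico (2 ^ j) (2 ^ (j + 1))).filter (fun t => t ∈ Exc δ A B) ⊆ E := by
      intro l hl
      rw [mem_filter, mem_Ico] at hl
      obtain ⟨⟨hl1, hl2⟩, hlp, hl22, j', hj'1, hj'2, hbad⟩ := hl
      have hjj : j' = j := by
        have h1 : Nat.log 2 l = j := (Nat.log_eq_iff (Or.inr ⟨by norm_num, by have := hlp.pos; omega⟩)).2 ⟨hl1, hl2⟩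
        have h2 : Nat.log 2 l = j' := (Nat.log_eq_iff (Or.inr ⟨by norm_num, by have := hlp.pos; omega⟩)).2 ⟨hj'1, hj'2⟩
        omega
      subst hjj
      by_contra hcon
      apply hbad
      intro A' hA' B' hB'
      refine (hE2 l hlp hl22 hl2.le hcon A' hA' B' hB').trans ?_
      apply mul_le_mul_of_nonneg_right _ (Real.sqrt_nonneg _)
      have hl0 : (0 : ℝ) < l := by exact_mod_cast hlp.pos
      have hl1' : (1 : ℝ) ≤ l := by exact_mod_cast hlp.one_lt.le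
      have h3 : (l : ℝ) ≤ ((2 ^ (j' + 1) : ℕ) : ℝ) := by exact_mod_cast hl2.le
      calc ((2 ^ (j' + 1) : ℕ) : ℝ) ^ (-δ₀) ≤ (l : ℝ) ^ (-δ₀) :=
            Real.rpow_le_rpow_of_nonpos hl0 h3 (by linarith)
        _ ≤ (l : ℝ) ^ (-δ) := Real.rpow_le_rpow_of_exponent_le hl1' (by linarith)
    have h4 : (((Ico (2 ^ j) (2 ^ (j + 1))).filter (fun t => t ∈ Exc δ A B)).card : ℝ) ≤ E.card := by
      exact_mod_cast Finset.card_le_card hsub
    refine h4.trans (hE.trans ?_)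
    have h5 : ((2 ^ (j + 1) : ℕ) : ℝ) = (2 : ℝ) ^ (j + 1) := by push_cast; rfl
    rw [h5]
    exact Real.rpow_le_rpow_of_exponent_le (one_le_pow₀ one_le_two) (by linarith)
  obtain ⟨E, hE, h1⟩ := Run7.h467.GA.good_nat (Exc δ A B) (s := 1 - δ) (by linarith) hcount d hσ hκ hθ hθ1
  refine ⟨E, hE, fun α hα c => ?_⟩
  obtain ⟨Q, hQ⟩ := h1 α hα c
  refine ⟨Q, fun p q hq happ u v huv hu hv l hl hl2 hw j hj1 hj2 => ?_⟩
  by_contra hcon
  exact (hQ p q hq happ u v huv hu hv l hw).2 ⟨hl, hl2, j, hj1, hj2, hcon⟩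

end Pool.Agent.Results.MP_f6e9a2_nt.GoodApproximations
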