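import Pool.Agent.Run7.h95.PG.Seg

/-!
# The initial segments below `p` of two ARBITRARY sets of integers, for almost all primes `p`

Let `𝒜` and `ℬ` be any sets of nonnegative integers (no condition on their structure) and let `𝒜(p)`, `ℬ(p)` be the sets of
their elements below the prime `p`, regarded as sets of residues modulo `p`. The bound of the question holds for the quadratic
character and the sets `u 𝒜(p)` and `v ℬ(p)`, for all but at most `Q ^ (1 - τ)` primes `p ≤ Q`, uniformly in `𝒜`, `ℬ` and in the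
nonzero integers `|u|, |v| ≤ Q`, and at the same time for all bilinear forms `∑ f(a) g(b) (u a + v b | p)` with arbitrary complex
weights (so for all large subsets of `𝒜(p)` and `ℬ(p)`). The starting result `AlmostAllPrimes` treats two fixed finite sets of
integers with at least `Q ^ ε` elements for all primes `p ≤ Q`; here the sets grow with `p` (they may be much smaller than
`Q ^ ε` for most `p ≤ Q`, and only the sets below `p` are used).

Proof. The segments `𝒜(p)`, `p ≤ Q`, form a chain, and every member of this chain is at least one half of one of `O(log Q)`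
members; the same for `ℬ`. The forms over `𝒜(p) × ℬ(p)` are restrictions of the forms over `O(log ^ 2 Q)` larger products, for
each of which the exceptional primes are counted in the starting files (`Pool.Agent.R345.SS10`).
-/

set_option autoImplicit false

namespace Pool.Agent.Results.MP_f6e9a2_nt.InitialSegments

open Finset
open Run7.h95.PG (seg Good)

/-- **Theorem.** For every `ε > 0` there are `τ > 0` and `Q₀` such that for all `Q ≥ Q₀`, ALL sets `𝒜`, `ℬ` of nonnegative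
integers and all nonzero integers `|u|, |v| ≤ Q`, for all but at most `Q ^ (1 - τ)` primes `p ≤ Q`: if `𝒜(p)` and `ℬ(p)` have at
least `p ^ ε` elements, then
(1) `|∑ f(a) g(b) (u a + v b | p)| ≤ p ^ (- τ) √(|𝒜(p)| |ℬ(p)|) ‖f‖ ‖g‖` for all complex weights `f`, `g` on `𝒜(p)`, `ℬ(p)`;
(2) for all subsets `A` of `𝒜(p)`, `B` of `ℬ(p)` with `|A| ≥ p ^ (- τ / 2) |𝒜(p)|` and `|B| ≥ p ^ (- τ / 2) |ℬ(p)|` one has
`|∑_{a ∈ A, b ∈ B} (u a + v b | p)| ≤ p ^ (- τ / 2) |A| |B|`. -/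
theorem result : ∀ ε : ℝ, 0 < ε → ∃ τ : ℝ, 0 < τ ∧ ∃ Q₀ : ℕ, ∀ Q : ℕ, Q₀ ≤ Q → ∀ (𝒜 ℬ : Set ℕ) (u v : ℤ),
    u ≠ 0 → v ≠ 0 → |u| ≤ Q → |v| ≤ Q →
    ∃ E : Finset ℕ, (E.card : ℝ) ≤ (Q : ℝ) ^ (1 - τ) ∧
      ∀ p : ℕ, p.Prime → p ≤ Q → p ∉ E → (p : ℝ) ^ ε ≤ (seg 𝒜 p).card → (p : ℝ) ^ ε ≤ (seg ℬ p).card →
        (∀ f g : ℕ → ℂ, ‖∑ a ∈ seg 𝒜 p, ∑ b ∈ seg ℬ p, f a * g b * (jacobiSym (u * a + v * b) p : ℂ)‖ ≤
          (p : ℝ) ^ (-τ) * √(((seg 𝒜 p).card : ℝ) * (seg ℬ p).card) *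
            (√(∑ a ∈ seg 𝒜 p, ‖f a‖ ^ 2) * √(∑ b ∈ seg ℬ p, ‖g b‖ ^ 2))) ∧
        ∀ A ⊆ seg 𝒜 p, ∀ B ⊆ seg ℬ p, (p : ℝ) ^ (-(τ / 2)) * (seg 𝒜 p).card ≤ A.card →
          (p : ℝ) ^ (-(τ / 2)) * (seg ℬ p).card ≤ B.card →
          |∑ a ∈ A, ∑ b ∈ B, (jacobiSym (u * a + v * b) p : ℝ)| ≤ (p : ℝ) ^ (-(τ / 2)) * ((A.card : ℝ) * B.card) := by
  classical
  intro ε hε
  obtain ⟨τ, hτ, Q₀, hQ₀⟩ := Run7.h95.PG.count ε hε
  refine ⟨τ, hτ, Q₀, fun Q hQ 𝒜 ℬ u v hu hv hu1 hv1 => ?_⟩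
  have h1 := hQ₀ Q hQ 𝒜 ℬ u v hu hv hu1 hv1
  have hfin : {p : ℕ | p.Prime ∧ p ≤ Q ∧ ¬ Good ε τ 𝒜 ℬ u v p}.Finite := (Set.finite_Iic Q).subset fun p hp => hp.2.1
  refine ⟨hfin.toFinset, ?_, fun p hp hpQ hpE hA hB => ?_⟩
  · rw [← Set.ncard_eq_toFinset_card _ hfin]
    exact h1
  · have hgood : Good ε τ 𝒜 ℬ u v p := by
      by_contra hcon
      exact hpE ((Set.Finite.mem_toFinset hfin).2 ⟨hp, hpQ, hcon⟩)
    refine ⟨hgood hA hB, fun A hA' B hB' h2 h3 => ?_⟩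
    have hp0 : (0 : ℝ) < p := by exact_mod_cast hp.pos
    refine (Run7.h95.PG.subsets hgood hA hB hA' hB').trans ?_
    obtain ⟨x, hx⟩ : ∃ x : ℝ, x = (p : ℝ) ^ (-(τ / 2)) := ⟨_, rfl⟩
    have hx0 : 0 < x := by rw [hx]; positivity
    have hxx : (p : ℝ) ^ (-τ) = x * x := by
      rw [hx, ← Real.rpow_add hp0]
      congr 1
      ring
    rw [← hx] at h2 h3 ⊢
    rw [hxx]
    have h4 : x * √(((seg 𝒜 p).card : ℝ) * (seg ℬ p).card) ≤ √((A.card : ℝ) * B.card) := by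
      apply Real.le_sqrt_of_sq_le
      rw [mul_pow, Real.sq_sqrt (by positivity)]
      calc x ^ 2 * (((seg 𝒜 p).card : ℝ) * (seg ℬ p).card) = (x * (seg 𝒜 p).card) * (x * (seg ℬ p).card) := by ring
        _ ≤ (A.card : ℝ) * B.card := mul_le_mul h2 h3 (by positivity) (by positivity)
    calc x * x * √(((seg 𝒜 p).card : ℝ) * (seg ℬ p).card) * √((A.card : ℝ) * B.card) =
        x * ((x * √(((seg 𝒜 p).card : ℝ) * (seg ℬ p).card)) * √((A.card : ℝ) * B.card)) := by ring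
      _ ≤ x * (√((A.card : ℝ) * B.card) * √((A.card : ℝ) * B.card)) := by
          apply mul_le_mul_of_nonneg_left _ hx0.le
          exact mul_le_mul_of_nonneg_right h4 (Real.sqrt_nonneg _)
      _ = x * ((A.card : ℝ) * B.card) := by rw [Real.mul_self_sqrt (by positivity)]

end Pool.Agent.Results.MP_f6e9a2_nt.InitialSegments
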