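import Pool.Agent.N760.TG.U
import Pool.Agent.Run7.h95.PG.Seg

/-!
# The initial segments of two arbitrary sets of integers for ALL primes near values of multiplicative functions

Let `f` be a positive multiplicative function of at most polynomial growth such that `f p ≤ M p` for the large primes `p`,
with different values at different large primes; for example Euler's function or the sum of the divisors. Let `G` have steps
bounded below by a positive constant and growth at most `v ^ d`, for example `G v = v`. Let `𝒜` and `ℬ` be any sets of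
nonnegative integers, and let `𝒜(p)`, `ℬ(p)` be the sets of their elements below the prime `p`. For every `ε > 0` there is
`τ > 0` (independent of `f`, `G`, `𝒜`, `ℬ`) such that for `κ ≥ 0`, `d (1 - τ) + κ < 1`, for all `m ≤ N` but `N / (log N) ^ U`, for
ALL primes `p` with `|p - G (f m)| ≤ f(m) ^ κ` and `|𝒜(p)|, |ℬ(p)| ≥ p ^ ε` the bilinear forms `∑ f(a) g(b) (r a + s b | p)` over
`𝒜(p) × ℬ(p)` satisfy the bound of the question with saving `p ^ (- τ)`, for arbitrary complex weights. This holds uniformly in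
`𝒜` and `ℬ`, and in the nonzero integers `|r|, |s| ≤ R`. The values of `f` are in general taken with very large multiplicities,
and so this does not follow from the number of exceptional primes.
-/

set_option autoImplicit false

namespace Pool.Agent.Results.MP_f6e9a2_nt.MultiplicativeValues

open Finset
open Pool.Agent.N733.TG (LM Expanding lm_totient lm_sigma expanding_pow)
open Run7.h95.PG (seg Good)

/-- the number of the exceptional primes, for all `X`, uniformly in the sets -/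
lemma count (ε : ℝ) (hε : 0 < ε) : ∃ τ : ℝ, 0 < τ ∧ τ ≤ 1 ∧ ∀ R : ℕ, ∃ C : ℝ, ∀ (𝒜 ℬ : Set ℕ) (r s : ℤ), r ≠ 0 → s ≠ 0 →
    |r| ≤ R → |s| ≤ R → ∀ X : ℕ, 1 ≤ X →
      ({t : ℕ | 1 ≤ t ∧ t ≤ X ∧ (t.Prime ∧ ¬ Good ε τ 𝒜 ℬ r s t)}.ncard : ℝ) ≤ C * (X : ℝ) ^ (1 - τ) := by
  obtain ⟨τ', hτ', Q₀, hQ₀⟩ := Run7.h95.PG.count ε hε
  obtain ⟨τ, hτd⟩ : ∃ τ, τ = min τ' 1 := ⟨_, rfl⟩
  have hτ : 0 < τ := by rw [hτd]; exact lt_min hτ' one_pos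
  have hτ1 : τ ≤ 1 := by rw [hτd]; exact min_le_right _ _
  have hττ : τ ≤ τ' := by rw [hτd]; exact min_le_left _ _
  refine ⟨τ, hτ, hτ1, fun R => ⟨((max Q₀ R : ℕ) : ℝ) + 1, fun 𝒜 ℬ r s hr hs hr1 hs1 X hX => ?_⟩⟩
  obtain ⟨Y, hY⟩ : ∃ Y : ℕ, Y = max Q₀ R := ⟨_, rfl⟩
  rw [← hY]
  have hX1 : (1 : ℝ) ≤ X := by exact_mod_cast hX
  have hp1 : 1 ≤ (X : ℝ) ^ (1 - τ) := Real.one_le_rpow hX1 (by linarith)
  have hY0 : (0 : ℝ) ≤ Y := Nat.cast_nonneg _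
  rcases Nat.lt_or_ge X Y with hlt | hge
  · have hsub : {t : ℕ | 1 ≤ t ∧ t ≤ X ∧ (t.Prime ∧ ¬ Good ε τ 𝒜 ℬ r s t)} ⊆ Set.Icc 1 X := fun t ht => ⟨ht.1, ht.2.1⟩
    have h3 := Set.ncard_le_ncard hsub (Set.finite_Icc 1 X)
    rw [Set.ncard_eq_toFinset_card' (Set.Icc 1 X)] at h3
    simp only [Set.toFinset_Icc, Nat.card_Icc, add_tsub_cancel_right] at h3
    have h4 : ({t : ℕ | 1 ≤ t ∧ t ≤ X ∧ (t.Prime ∧ ¬ Good ε τ 𝒜 ℬ r s t)}.ncard : ℝ) ≤ Y := by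
      exact_mod_cast h3.trans hlt.le
    calc _ ≤ (Y : ℝ) := h4
      _ ≤ ((Y : ℝ) + 1) * 1 := by linarith
      _ ≤ _ := mul_le_mul_of_nonneg_left hp1 (by positivity)
  · have h5 : Q₀ ≤ X := (by rw [hY]; exact le_max_left _ _ : Q₀ ≤ Y).trans hge
    have h6 : R ≤ X := (by rw [hY]; exact le_max_right _ _ : R ≤ Y).trans hge
    have h6' : (R : ℤ) ≤ X := by exact_mod_cast h6
    have h8 := hQ₀ X h5 𝒜 ℬ r s hr hs (hr1.trans h6') (hs1.trans h6')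
    have hfin : {p : ℕ | p.Prime ∧ p ≤ X ∧ ¬ Good ε τ' 𝒜 ℬ r s p}.Finite := (Set.finite_Iic X).subset fun p hp => hp.2.1
    have hsub : {t : ℕ | 1 ≤ t ∧ t ≤ X ∧ (t.Prime ∧ ¬ Good ε τ 𝒜 ℬ r s t)} ⊆
        {p : ℕ | p.Prime ∧ p ≤ X ∧ ¬ Good ε τ' 𝒜 ℬ r s p} := by
      rintro p ⟨-, hpQ, hp, hbad⟩
      refine ⟨hp, hpQ, fun hg => hbad fun hA hB f g => (hg hA hB f g).trans ?_⟩
      have hp1 : (1 : ℝ) ≤ p := by exact_mod_cast hp.one_lt.le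
      apply mul_le_mul_of_nonneg_right _ (by positivity)
      apply mul_le_mul_of_nonneg_right _ (Real.sqrt_nonneg _)
      exact Real.rpow_le_rpow_of_exponent_le hp1 (by linarith)
    have h9 := Set.ncard_le_ncard hsub hfin
    calc (({t : ℕ | 1 ≤ t ∧ t ≤ X ∧ (t.Prime ∧ ¬ Good ε τ 𝒜 ℬ r s t)}.ncard : ℕ) : ℝ) ≤
          ({p : ℕ | p.Prime ∧ p ≤ X ∧ ¬ Good ε τ' 𝒜 ℬ r s p}.ncard : ℝ) := by exact_mod_cast h9
      _ ≤ (X : ℝ) ^ (1 - τ') := h8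
      _ ≤ (X : ℝ) ^ (1 - τ) := Real.rpow_le_rpow_of_exponent_le hX1 (by linarith)
      _ = 1 * (X : ℝ) ^ (1 - τ) := (one_mul _).symm
      _ ≤ _ := mul_le_mul_of_nonneg_right (by linarith) (by positivity)

/-- **Theorem.** For every `ε > 0` there is `τ` in `(0, 1]` with the following property. Let `f` be multiplicative and positive,
of at most polynomial growth, with `f p ≤ M p` at the large primes, and injective there. Let `G` have steps `≥ a > 0` and growth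
at most `v ^ d`, `κ ≥ 0` and `d (1 - τ) + κ < 1`. Then for every `U` and `R` there is `N₀` such that for ALL sets `𝒜`, `ℬ` of
nonnegative integers, all nonzero integers `|r|, |s| ≤ R` and all `N ≥ N₀`: for all `m ≤ N` but `N / (log N) ^ U`, ALL primes `p`
with `|p - G (f m)| ≤ f(m) ^ κ` are good for `𝒜`, `ℬ`, `r`, `s`. Euler's function and the sum of the divisors are examples of
such functions `f`, and `α v ^ d` with `α > 0`, `d ≥ 1` is an example of `G`. -/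
theorem result :
    (∀ ε : ℝ, 0 < ε → ∃ τ : ℝ, 0 < τ ∧ τ ≤ 1 ∧ ∀ f : ℕ → ℕ, LM f → ∀ (G : ℕ → ℝ) (d : ℝ), Expanding G d → ∀ κ : ℝ, 0 ≤ κ →
      d * (1 - τ) + κ < 1 → ∀ U R : ℕ, ∃ N₀ : ℕ, ∀ (𝒜 ℬ : Set ℕ) (r s : ℤ), r ≠ 0 → s ≠ 0 → |r| ≤ R → |s| ≤ R →
        ∀ N : ℕ, N₀ ≤ N →
        ({m : ℕ | 1 ≤ m ∧ m ≤ N ∧ ¬ ∀ p : ℕ, p.Prime → |(p : ℝ) - G (f m)| ≤ (f m : ℝ) ^ κ →
          Good ε τ 𝒜 ℬ r s p}.ncard : ℝ) ≤ N / Real.log N ^ U) ∧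
    (LM Nat.totient ∧ LM (fun m => ∑ d ∈ m.divisors, d)) ∧
    ∀ α d : ℝ, 0 < α → 1 ≤ d → Expanding (fun v => α * (v : ℝ) ^ d) d := by
  refine ⟨?_, ⟨lm_totient, lm_sigma⟩, fun α d hα hd => expanding_pow hα hd⟩
  intro ε hε
  obtain ⟨τ, hτ, hτ1, hcount⟩ := count ε hε
  refine ⟨τ, hτ, hτ1, fun f hf G d hG κ hκ h1 U R => ?_⟩
  obtain ⟨C, hC⟩ := hcount R
  obtain ⟨N₀, hN₀⟩ := Pool.Agent.N760.TG.keep_good_nat_unif hf hG (s := 1 - τ) (by linarith) hκ h1 C U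
  refine ⟨N₀, fun 𝒜 ℬ r s hr hs hr1 hs1 N hN => ?_⟩
  have h2 := hN₀ (fun p => p.Prime ∧ ¬ Good ε τ 𝒜 ℬ r s p) (hC 𝒜 ℬ r s hr hs hr1 hs1) N hN
  refine le_trans ?_ h2
  have hfin : {m : ℕ | 1 ≤ m ∧ m ≤ N ∧ ∃ n : ℕ, 1 ≤ n ∧ |(n : ℝ) - G (f m)| ≤ (f m : ℝ) ^ κ ∧
      (n.Prime ∧ ¬ Good ε τ 𝒜 ℬ r s n)}.Finite := (Set.finite_Iic N).subset (fun m hm => hm.2.1)
  have hsub : {m : ℕ | 1 ≤ m ∧ m ≤ N ∧ ¬ ∀ p : ℕ, p.Prime → |(p : ℝ) - G (f m)| ≤ (f m : ℝ) ^ κ →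
      Good ε τ 𝒜 ℬ r s p} ⊆ {m : ℕ | 1 ≤ m ∧ m ≤ N ∧ ∃ n : ℕ, 1 ≤ n ∧ |(n : ℝ) - G (f m)| ≤ (f m : ℝ) ^ κ ∧
      (n.Prime ∧ ¬ Good ε τ 𝒜 ℬ r s n)} := by
    rintro m ⟨g1, g2, g3⟩
    push Not at g3
    obtain ⟨p, g4, g5, g6⟩ := g3
    exact ⟨g1, g2, p, g4.one_lt.le, g5, g4, g6⟩
  exact_mod_cast Set.ncard_le_ncard hsub hfin

end Pool.Agent.Results.MP_f6e9a2_nt.MultiplicativeValues
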